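import Mathlib
import Pool.Agent.Q31.BF.Final

/-!
# MP_bd6a20_al: boomerang subgroups of Thompson's group `F`

Every boomerang subgroup of Thompson's group `F` is normal.
-/

set_option autoImplicit false

namespace Pool.Agent.Results.MP_bd6a20_al.BoomerangNormal

open Q31.BF

/-- A subgroup of Thompson's group `F` is a boomerang subgroup if and only if it is normal. -/
theorem result (Δ : Subgroup ThompsonF) : IsBoomerang Δ ↔ Δ.Normal :=
  boomerang_iff Δ

end Pool.Agent.Results.MP_bd6a20_al.BoomerangNormal
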